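import Pool.Agent.H1.MV.Counterexample

/-! ### General definitions: closure spaces of semilattice type -/

set_option linter.unusedSimpArgs false

set_option linter.style.longLine false

namespace Pool.Agent.Results.MP_df2171_co.Counterexample

open Pool.H1.MV.Counterexample

/-- **Negative answer to Q1.** There is a closure space of semilattice type in which the clopen
sets form a lattice although some regular closed set is not clopen. -/
theorem result : ∃ (P : Type) (φ : ClosureOperator (Set P)),
    IsSemilatticeType φ ∧ IsLatticeFamily (Clop φ) ∧ Clop φ ≠ Reg φ :=
  Pool.H1.MV.Counterexample.result

end Pool.Agent.Results.MP_df2171_co.Counterexample
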